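import Mathlib

/-!
# Multi-tiling windows of level above one without Gabor Riesz bases

For every full rank lattice `Λ` of `ℝ^d` and every `k ≥ 2` there is a bounded set `Ω` which
multi-tiles by `Λ` at level `k` and for which no set `Γ` of frequencies makes the Gabor system
`G(χ_Ω, Λ × Γ)` a Riesz basis of `L²(ℝ^d)`.
-/

set_option autoImplicit false

open MeasureTheory Set
open scoped ENNReal

namespace Pool.Agent.Results.MP_9d6809_an.NoRieszBasis

/-- The full rank lattice `M(ℤ^d)`, for an invertible linear map `M` of `ℝ^d`. -/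
def lattice {d : ℕ} (M : (Fin d → ℝ) ≃ₗ[ℝ] (Fin d → ℝ)) : Set (Fin d → ℝ) :=
  Set.range fun n : Fin d → ℤ => M fun i => (n i : ℝ)

/-- `Ω` multi-tiles `ℝ^d` by `L` at level `k`: for almost every `x` there are exactly `k` elements
`l` of `L` with `x ∈ Ω + l`. -/
def MultiTiles {d : ℕ} (Ω L : Set (Fin d → ℝ)) (k : ℕ) : Prop :=
  ∀ᵐ x : Fin d → ℝ, {l | l ∈ L ∧ x - l ∈ Ω}.encard = k

/-- The Gabor system `G(g, L × Γ)`: the family of the functions `x ↦ e^{2π i γ·x} g(x - λ)`,
indexed by `(λ, γ) ∈ L × Γ`. -/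
noncomputable def gabor {d : ℕ} (g : (Fin d → ℝ) → ℂ) (L Γ : Set (Fin d → ℝ)) :
    L × Γ → (Fin d → ℝ) → ℂ :=
  fun s x => Complex.exp (2 * Real.pi * Complex.I * ((s.2 : Fin d → ℝ) ⬝ᵥ x : ℝ)) *
    g (x - (s.1 : Fin d → ℝ))

/-- The family `v` is a Riesz basis of the Hilbert space `H`: it is the image of an orthonormal
(Hilbert) basis under a bounded invertible linear operator of `H`. -/
def IsRieszBasisOf {ι H : Type} [NormedAddCommGroup H] [InnerProductSpace ℂ H]
    (v : ι → H) : Prop :=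
  ∃ (b : HilbertBasis ι ℂ H) (T : H ≃L[ℂ] H), ∀ i, v i = T (b i)

/-- Lebesgue measure on `ℝ^d`. -/
noncomputable def leb (d : ℕ) : Measure (Fin d → ℝ) := volume

/-- The family `g` of functions on `ℝ^d` is (represents) a Riesz basis of the complex Hilbert space
`L²(ℝ^d)`. -/
def IsRieszBasis {d : ℕ} {ι : Type} (g : ι → (Fin d → ℝ) → ℂ) : Prop :=
  ∃ v : ι → Lp ℂ 2 (leb d), (∀ i, v i =ᵐ[leb d] g i) ∧ IsRieszBasisOf v

section proof

variable {d : ℕ}

/-- working form of `IsRieszBasis` -/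
def IsRieszBasis' {ι : Type} (v : ι → (Fin d → ℝ) → ℂ) : Prop :=
  ∃ (b : HilbertBasis ι ℂ (Lp ℂ 2 (volume : Measure (Fin d → ℝ))))
    (T : Lp ℂ 2 (volume : Measure (Fin d → ℝ)) ≃L[ℂ] Lp ℂ 2 (volume : Measure (Fin d → ℝ))),
    ∀ i, (T (b i) : (Fin d → ℝ) → ℂ) =ᵐ[volume] v i

lemma isRieszBasis' {ι : Type} {g : ι → (Fin d → ℝ) → ℂ} (h : IsRieszBasis g) :
    IsRieszBasis' g := by
  obtain ⟨v, hv, b, T, hvT⟩ := h
  refine ⟨b, T, fun i => ?_⟩
  have h1 := hv i
  rw [hvT i] at h1
  exact h1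

/-- the box `[p, q) × [0, 1)^(d-1)` in coordinates `y`, the first coordinate being `i0` -/
def box (i0 : Fin d) (p q : ℝ) : Set (Fin d → ℝ) :=
  {y | p ≤ y i0 ∧ y i0 < q ∧ ∀ i, i ≠ i0 → 0 ≤ y i ∧ y i < 1}

lemma box_eq (i0 : Fin d) (p q : ℝ) :
    box i0 p q = Set.univ.pi (fun i => if i = i0 then Ico p q else Ico (0 : ℝ) 1) := by
  ext y
  simp only [box, Set.mem_ofPred_eq, Set.mem_univ_pi]
  constructor
  · rintro ⟨h1, h2, h3⟩ i
    by_cases hi : i = i0
    · rw [if_pos hi, hi]; exact ⟨h1, h2⟩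
    · rw [if_neg hi]; exact h3 i hi
  · intro h
    have h0 := h i0
    rw [if_pos rfl] at h0
    refine ⟨h0.1, h0.2, fun i hi => ?_⟩
    have := h i
    rwa [if_neg hi] at this

lemma measurableSet_box (i0 : Fin d) (p q : ℝ) : MeasurableSet (box i0 p q) := by
  rw [box_eq]
  refine MeasurableSet.univ_pi fun i => ?_
  split_ifs
  · exact measurableSet_Ico
  · exact measurableSet_Ico

lemma volume_box (i0 : Fin d) (p q : ℝ) :
    volume (box i0 p q) = ENNReal.ofReal (q - p) := by
  rw [box_eq, volume_pi_pi]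
  have : ∀ i : Fin d, volume (if i = i0 then Ico p q else Ico (0 : ℝ) 1) =
      if i = i0 then ENNReal.ofReal (q - p) else 1 := by
    intro i
    split_ifs
    · rw [Real.volume_Ico]
    · rw [Real.volume_Ico]; simp
  simp_rw [this]
  rw [Finset.prod_ite_eq' Finset.univ i0 (fun _ => ENNReal.ofReal (q - p))]
  simp

/-- the set `M(box)` -/
def cell (M : (Fin d → ℝ) ≃ₗ[ℝ] (Fin d → ℝ)) (i0 : Fin d) (p q : ℝ) : Set (Fin d → ℝ) :=
  M.symm ⁻¹' box i0 p q

lemma measurable_symm (M : (Fin d → ℝ) ≃ₗ[ℝ] (Fin d → ℝ)) : Measurable M.symm := by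
  have : Continuous (M.symm : (Fin d → ℝ) →ₗ[ℝ] (Fin d → ℝ)) :=
    LinearMap.continuous_of_finiteDimensional _
  exact this.measurable

lemma measurableSet_cell (M : (Fin d → ℝ) ≃ₗ[ℝ] (Fin d → ℝ)) (i0 : Fin d) (p q : ℝ) :
    MeasurableSet (cell M i0 p q) :=
  measurable_symm M (measurableSet_box i0 p q)

/-- the factor `|det M|` -/
noncomputable def cdet (M : (Fin d → ℝ) ≃ₗ[ℝ] (Fin d → ℝ)) : ℝ :=
  |(LinearMap.det (M.symm : (Fin d → ℝ) →ₗ[ℝ] (Fin d → ℝ)))⁻¹|

lemma cdet_pos (M : (Fin d → ℝ) ≃ₗ[ℝ] (Fin d → ℝ)) : 0 < cdet M := by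
  unfold cdet
  have h := LinearEquiv.isUnit_det' M.symm
  have h2 : LinearMap.det (M.symm : (Fin d → ℝ) →ₗ[ℝ] (Fin d → ℝ)) ≠ 0 := h.ne_zero
  positivity

lemma volume_cell (M : (Fin d → ℝ) ≃ₗ[ℝ] (Fin d → ℝ)) (i0 : Fin d) (p q : ℝ) :
    volume (cell M i0 p q) = ENNReal.ofReal (cdet M) * ENNReal.ofReal (q - p) := by
  have h := LinearEquiv.isUnit_det' M.symm
  have h2 : LinearMap.det (M.symm : (Fin d → ℝ) →ₗ[ℝ] (Fin d → ℝ)) ≠ 0 := h.ne_zero
  have := Measure.addHaar_preimage_linearMap (volume : Measure (Fin d → ℝ)) h2 (box i0 p q)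
  rw [volume_box] at this
  exact this

lemma multiTiles_cell (M : (Fin d → ℝ) ≃ₗ[ℝ] (Fin d → ℝ)) (i0 : Fin d) (k : ℕ) :
    MultiTiles (cell M i0 0 k) (lattice M) k := by
  refine Filter.Eventually.of_forall fun x => ?_
  set y := M.symm x with hy
  set φ : Fin k → (Fin d → ℝ) := fun j =>
    M (fun i => (((if i = i0 then ⌊y i⌋ - (j : ℤ) else ⌊y i⌋) : ℤ) : ℝ)) with hφ
  have hinj : Function.Injective φ := by
    intro j j' h
    have h1 := M.injective h
    have h2 := congrFun h1 i0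
    simp only [if_true] at h2
    have h3 : ⌊y i0⌋ - (j : ℤ) = ⌊y i0⌋ - (j' : ℤ) := by exact_mod_cast h2
    apply Fin.ext
    omega
  have hset : {l | l ∈ lattice M ∧ x - l ∈ cell M i0 0 k} = Set.range φ := by
    ext l
    constructor
    · rintro ⟨⟨n, rfl⟩, h2⟩
      unfold cell at h2
      rw [Set.mem_preimage, map_sub] at h2
      obtain ⟨h3, h4, h5⟩ := h2
      simp only [LinearEquiv.symm_apply_apply, Pi.sub_apply, sub_nonneg] at h3 h4 h5
      rw [← hy] at h3 h4 h5
      have h6 : n i0 ≤ ⌊y i0⌋ := Int.le_floor.mpr h3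
      have h7 : ⌊y i0⌋ < n i0 + k := by
        rw [Int.floor_lt]
        push_cast
        linarith
      refine ⟨⟨(⌊y i0⌋ - n i0).toNat, by omega⟩, ?_⟩
      simp only [hφ]
      congr 1
      funext i
      by_cases hi : i = i0
      · subst hi
        rw [if_pos rfl, Int.toNat_of_nonneg (by omega)]
        congr 1
        ring
      · rw [if_neg hi]
        have h8 := h5 i hi
        have h9 : ⌊y i⌋ = n i := by
          rw [Int.floor_eq_iff]
          constructor
          · linarith [h8.1]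
          · linarith [h8.2]
        rw [h9]
    · rintro ⟨j, rfl⟩
      refine ⟨⟨_, rfl⟩, ?_⟩
      unfold cell
      rw [Set.mem_preimage, map_sub]
      simp only [hφ, LinearEquiv.symm_apply_apply]
      rw [← hy]
      have hj : ((j : ℕ) : ℝ) + 1 ≤ k := by exact_mod_cast j.2
      have hfl := Int.floor_le (y i0)
      have hfl' := Int.lt_floor_add_one (y i0)
      refine ⟨?_, ?_, ?_⟩
      · simp only [Pi.sub_apply, if_true]
        push_cast
        have : (0 : ℝ) ≤ (j : ℕ) := Nat.cast_nonneg _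
        linarith
      · simp only [Pi.sub_apply, if_true]
        push_cast
        linarith
      · intro i hi
        simp only [Pi.sub_apply, if_neg hi]
        exact ⟨by linarith [Int.floor_le (y i)], by linarith [Int.lt_floor_add_one (y i)]⟩
  rw [hset, ← Set.image_univ, hinj.encard_image, Set.encard_univ]
  simp


/-- indicator of a cell as a complex function -/
noncomputable def ind (M : (Fin d → ℝ) ≃ₗ[ℝ] (Fin d → ℝ)) (i0 : Fin d) (p q : ℝ) :
    (Fin d → ℝ) → ℂ := (cell M i0 p q).indicator fun _ => 1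

lemma ind_add (M : (Fin d → ℝ) ≃ₗ[ℝ] (Fin d → ℝ)) (i0 : Fin d) {p r q : ℝ} (h1 : p ≤ r)
    (h2 : r ≤ q) (x : Fin d → ℝ) : ind M i0 p q x = ind M i0 p r x + ind M i0 r q x := by
  classical
  unfold ind
  simp only [Set.indicator_apply]
  have key : ∀ p q : ℝ, x ∈ cell M i0 p q ↔ (p ≤ M.symm x i0 ∧ M.symm x i0 < q ∧
      ∀ i, i ≠ i0 → 0 ≤ M.symm x i ∧ M.symm x i < 1) := fun p q => Iff.rfl
  rw [key, key, key]
  by_cases h : ∀ i, i ≠ i0 → 0 ≤ M.symm x i ∧ M.symm x i < 1
  · by_cases a1 : p ≤ M.symm x i0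
    · by_cases a2 : M.symm x i0 < r
      · have a3 : M.symm x i0 < q := a2.trans_le h2
        have a4 : ¬ r ≤ M.symm x i0 := not_le.mpr a2
        rw [if_pos ⟨a1, a3, h⟩, if_pos ⟨a1, a2, h⟩, if_neg (fun h' => a4 h'.1), add_zero]
      · have a4 : r ≤ M.symm x i0 := not_lt.mp a2
        by_cases a3 : M.symm x i0 < q
        · rw [if_pos ⟨a1, a3, h⟩, if_neg (fun h' => a2 h'.2.1), if_pos ⟨a4, a3, h⟩, zero_add]
        · rw [if_neg (fun h' => a3 h'.2.1), if_neg (fun h' => a2 h'.2.1),
            if_neg (fun h' => a3 h'.2.1), add_zero]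
    · have a5 : ¬ r ≤ M.symm x i0 := fun h => a1 (h1.trans h)
      rw [if_neg (fun h' => a1 h'.1), if_neg (fun h' => a1 h'.1), if_neg (fun h' => a5 h'.1),
        add_zero]
  · rw [if_neg (fun h' => h h'.2.2), if_neg (fun h' => h h'.2.2), if_neg (fun h' => h h'.2.2),
      add_zero]

lemma ind_sub (M : (Fin d → ℝ) ≃ₗ[ℝ] (Fin d → ℝ)) (i0 : Fin d) (p q t : ℝ) (x : Fin d → ℝ) :
    ind M i0 p q (x - M (fun i => if i = i0 then t else 0)) = ind M i0 (p + t) (q + t) x := by
  classical
  unfold ind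
  simp only [Set.indicator_apply]
  congr 1
  have : (x - M (fun i => if i = i0 then t else 0) ∈ cell M i0 p q) ↔
      x ∈ cell M i0 (p + t) (q + t) := by
    unfold cell
    rw [Set.mem_preimage, Set.mem_preimage, map_sub, LinearEquiv.symm_apply_apply]
    unfold box
    simp only [Set.mem_ofPred_eq, Pi.sub_apply, if_true]
    constructor
    · rintro ⟨h1, h2, h3⟩
      refine ⟨by linarith, by linarith, fun i hi => ?_⟩
      have := h3 i hi
      rw [if_neg hi, sub_zero] at this
      exact this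
    · rintro ⟨h1, h2, h3⟩
      refine ⟨by linarith, by linarith, fun i hi => ?_⟩
      rw [if_neg hi, sub_zero]
      exact h3 i hi
  exact propext this

/-- the exponential factor -/
noncomputable def ex (γ x : Fin d → ℝ) : ℂ :=
  Complex.exp (2 * Real.pi * Complex.I * ((γ ⬝ᵥ x : ℝ) : ℂ))

lemma norm_ex (γ x : Fin d → ℝ) : ‖ex γ x‖ = 1 := by
  unfold ex
  have : (2 * Real.pi * Complex.I * ((γ ⬝ᵥ x : ℝ) : ℂ)) =
      ((2 * Real.pi * (γ ⬝ᵥ x) : ℝ) : ℂ) * Complex.I := by
    push_cast; ring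
  rw [this, Complex.norm_exp_ofReal_mul_I]

lemma measurable_ex (γ : Fin d → ℝ) : Measurable (ex γ) := by
  have : Continuous (ex γ) := by
    unfold ex
    have h : Continuous fun x : Fin d → ℝ => γ ⬝ᵥ x := by
      unfold dotProduct
      fun_prop
    fun_prop
  exact this.measurable

/-- the modulated cell -/
noncomputable def G (M : (Fin d → ℝ) ≃ₗ[ℝ] (Fin d → ℝ)) (i0 : Fin d) (γ : Fin d → ℝ) (p q : ℝ) :
    (Fin d → ℝ) → ℂ := fun x => ex γ x * ind M i0 p q x

lemma aesm_G (M : (Fin d → ℝ) ≃ₗ[ℝ] (Fin d → ℝ)) (i0 : Fin d) (γ : Fin d → ℝ) (p q : ℝ) :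
    AEStronglyMeasurable (G M i0 γ p q) volume := by
  refine ((measurable_ex γ).mul ?_).aestronglyMeasurable
  exact measurable_const.indicator (measurableSet_cell M i0 p q)

lemma eLpNorm_G (M : (Fin d → ℝ) ≃ₗ[ℝ] (Fin d → ℝ)) (i0 : Fin d) (γ : Fin d → ℝ) (p q : ℝ) :
    eLpNorm (G M i0 γ p q) 2 volume = (volume (cell M i0 p q)) ^ (1 / (2 : ℝ)) := by
  have h1 : eLpNorm (G M i0 γ p q) 2 volume = eLpNorm (ind M i0 p q) 2 volume := by
    refine eLpNorm_congr_norm_ae (Filter.Eventually.of_forall fun x => ?_)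
    simp only [G]
    rw [norm_mul, norm_ex, one_mul]
  rw [h1]
  unfold ind
  rw [eLpNorm_indicator_const (measurableSet_cell M i0 p q) (by norm_num) (by norm_num)]
  simp

/-- No Gabor system with this window is a Riesz basis. -/
lemma no_riesz (M : (Fin d → ℝ) ≃ₗ[ℝ] (Fin d → ℝ)) (i0 : Fin d) (k : ℕ) (hk : 2 ≤ k)
    (Γ : Set (Fin d → ℝ)) :
    ¬ IsRieszBasis' (gabor ((cell M i0 0 k).indicator fun _ => (1 : ℂ)) (lattice M) Γ) := by
  classical
  rintro ⟨b, T, hT⟩
  rcases Γ.eq_empty_or_nonempty with hΓ | ⟨γ, hγ⟩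
  · -- no frequencies: the space would be trivial
    have : IsEmpty (lattice M × Γ) := by
      rw [hΓ]
      infer_instance
    have hsub : Subsingleton (Lp ℂ 2 (volume : Measure (Fin d → ℝ))) := by
      refine ⟨fun x y => b.repr.injective ?_⟩
      ext i
      exact isEmptyElim i
    have hfin : volume (cell M i0 0 1) ≠ ⊤ := by
      rw [volume_cell]
      exact ENNReal.mul_ne_top ENNReal.ofReal_ne_top ENNReal.ofReal_ne_top
    have hne : (volume : Measure (Fin d → ℝ)) (cell M i0 0 1) ≠ 0 := by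
      rw [volume_cell]
      have := cdet_pos M
      simp [this]
    have h0 : indicatorConstLp 2 (measurableSet_cell M i0 0 1) hfin (1 : ℂ) = 0 :=
      Subsingleton.elim _ _
    have h1 : ‖indicatorConstLp 2 (measurableSet_cell M i0 0 1) hfin (1 : ℂ)‖ = 0 := by
      rw [h0, norm_zero]
    rw [norm_indicatorConstLp (by norm_num) (by norm_num)] at h1
    simp only [norm_one, one_mul] at h1
    have h2 : 0 < (volume : Measure (Fin d → ℝ)).real (cell M i0 0 1) :=
      ENNReal.toReal_pos hne hfin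
    have h3 : 0 < (volume : Measure (Fin d → ℝ)).real (cell M i0 0 1) ^
      (1 / (2 : ℝ≥0∞).toReal) := Real.rpow_pos_of_pos h2 _
    exact h3.ne' h1
  · -- the index of the `n`-th translate in the direction `i0`
    have hmem : ∀ n : ℕ, M (fun i => if i = i0 then (n : ℝ) else 0) ∈ lattice M := by
      intro n
      refine ⟨fun i => if i = i0 then (n : ℤ) else 0, ?_⟩
      change M _ = M _
      congr 1
      funext i
      by_cases hi : i = i0
      · simp [hi]
      · simp [hi]
    set e : ℕ → lattice M × Γ := fun n => (⟨_, hmem n⟩, ⟨γ, hγ⟩) with he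
    have hinj : Function.Injective e := by
      intro n m h
      have h1 : M (fun i => if i = i0 then (n : ℝ) else 0) =
          M (fun i => if i = i0 then (m : ℝ) else 0) := congrArg (fun s => (s.1 : Fin d → ℝ)) h
      have h2 := congrFun (M.injective h1) i0
      simp only [if_true] at h2
      exact_mod_cast h2
    have hTe : ∀ n : ℕ, (T (b (e n)) : (Fin d → ℝ) → ℂ) =ᵐ[volume]
        G M i0 γ n (n + k) := by
      intro n
      refine (hT (e n)).trans (Filter.Eventually.of_forall fun x => ?_)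
      have := ind_sub M i0 0 k n x
      unfold ind at this
      simp only [gabor, he, G, ex]
      rw [this]
      unfold ind
      rw [zero_add, add_comm (k : ℝ) (n : ℝ)]
    -- the test vectors
    set u : ℕ → Lp ℂ 2 (volume : Measure (Fin d → ℝ)) := fun N =>
      ∑ j ∈ Finset.range N, (b (e (k * j)) - b (e (k * j + 1))) with hu
    have hTu : ∀ N : ℕ, (T (u N) : (Fin d → ℝ) → ℂ) =ᵐ[volume]
        fun x => G M i0 γ 0 1 x - G M i0 γ (k * N) (k * N + 1) x := by
      intro N
      induction N with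
      | zero =>
        simp only [hu, Finset.range_zero, Finset.sum_empty, map_zero]
        refine (Lp.coeFn_zero ℂ 2 volume).trans (Filter.Eventually.of_forall fun x => ?_)
        simp
      | succ N ih =>
        have h1 : u (N + 1) = u N + (b (e (k * N)) - b (e (k * N + 1))) := by
          simp only [hu]
          rw [Finset.sum_range_succ]
        rw [h1, map_add, map_sub]
        filter_upwards [ih, hTe (k * N), hTe (k * N + 1),
          Lp.coeFn_add (T (u N)) (T (b (e (k * N))) - T (b (e (k * N + 1)))),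
          Lp.coeFn_sub (T (b (e (k * N)))) (T (b (e (k * N + 1))))] with x h2 h3 h4 h5 h6
        rw [h5, Pi.add_apply, h6, Pi.sub_apply, h2, h3, h4]
        simp only [G]
        have hk' : (1 : ℝ) ≤ k := by exact_mod_cast (by omega : 1 ≤ k)
        have a1 := ind_add M i0 (p := (k * N : ℝ)) (r := k * N + 1) (q := k * N + k)
          (by linarith) (by linarith) x
        have a2 := ind_add M i0 (p := (k * N + 1 : ℝ)) (r := k * N + k) (q := k * N + 1 + k)
          (by linarith) (by linarith) x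
        push_cast
        rw [a1, a2]
        have e1 : (k : ℝ) * (N + 1) = k * N + k := by ring
        have e2 : (k : ℝ) * N + k + 1 = k * N + 1 + k := by ring
        rw [e1, e2]
        ring
    set C : ℝ := ((volume (cell M i0 0 1)) ^ (1 / (2 : ℝ))).toReal with hC
    have hvol : ∀ N : ℕ, volume (cell M i0 (k * N) (k * N + 1)) = volume (cell M i0 0 1) := by
      intro N
      rw [volume_cell, volume_cell]
      congr 2
      ring
    have hfin : (volume (cell M i0 0 1)) ^ (1 / (2 : ℝ)) ≠ ⊤ := by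
      refine ENNReal.rpow_ne_top_of_nonneg (by norm_num) ?_
      rw [volume_cell]
      exact ENNReal.mul_ne_top ENNReal.ofReal_ne_top ENNReal.ofReal_ne_top
    have hnorm : ∀ N : ℕ, ‖T (u N)‖ ≤ 2 * C := by
      intro N
      rw [Lp.norm_def, eLpNorm_congr_ae (hTu N)]
      have h1 : eLpNorm (fun x => G M i0 γ 0 1 x - G M i0 γ (k * N) (k * N + 1) x) 2 volume ≤
          2 * (volume (cell M i0 0 1)) ^ (1 / (2 : ℝ)) := by
        refine (eLpNorm_sub_le (aesm_G M i0 γ 0 1) (aesm_G M i0 γ _ _) (by norm_num)).trans ?_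
        rw [eLpNorm_G, eLpNorm_G, hvol, two_mul]
      have h2 := ENNReal.toReal_mono (ENNReal.mul_ne_top (by norm_num) hfin) h1
      rwa [ENNReal.toReal_mul, ENNReal.toReal_ofNat] at h2
    have hlow : ∀ N : ℕ, (N : ℝ) ≤ ‖u N‖ ^ 2 := by
      intro N
      have hb := b.orthonormal
      have hinner : ∀ j ∈ Finset.range N, inner ℂ (b (e (k * j))) (u N) = (1 : ℂ) := by
        intro j hj
        simp only [hu]
        rw [inner_sum]
        have : ∀ i ∈ Finset.range N,
            inner ℂ (b (e (k * j))) (b (e (k * i)) - b (e (k * i + 1))) =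
              if i = j then (1 : ℂ) else 0 := by
          intro i _
          rw [inner_sub_right, (orthonormal_iff_ite.mp hb) _ _, (orthonormal_iff_ite.mp hb) _ _]
          have h1 : e (k * j) ≠ e (k * i + 1) := by
            intro h
            have h2 := hinj h
            have h3 : (k * j) % k = (k * i + 1) % k := by rw [h2]
            rw [Nat.mul_mod_right, Nat.mul_add_mod, Nat.mod_eq_of_lt (by omega)] at h3
            omega
          rw [if_neg h1, sub_zero]
          by_cases hij : i = j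
          · rw [hij]; simp
          · rw [if_neg hij, if_neg]
            intro h
            have h2 := hinj h
            exact hij (Nat.eq_of_mul_eq_mul_left (by omega) h2).symm
        rw [Finset.sum_congr rfl this, Finset.sum_ite_eq' (Finset.range N) j]
        rw [if_pos hj]
      have hb' : Orthonormal ℂ (fun j : ℕ => b (e (k * j))) := by
        refine hb.comp _ ?_
        intro i j h
        exact Nat.eq_of_mul_eq_mul_left (by omega) (hinj h)
      have h1 := hb'.sum_inner_products_le (x := u N) (s := Finset.range N)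
      have h2 : ∑ j ∈ Finset.range N, ‖inner ℂ (b (e (k * j))) (u N)‖ ^ 2 = (N : ℝ) := by
        rw [Finset.sum_congr rfl (fun j hj => by rw [hinner j hj])]
        simp
      linarith
    have hup : ∀ N : ℕ, ‖u N‖ ≤ ‖(T.symm : Lp ℂ 2 (volume : Measure (Fin d → ℝ)) →L[ℂ]
        Lp ℂ 2 (volume : Measure (Fin d → ℝ)))‖ * (2 * C) := by
      intro N
      have h1 : u N = (T.symm : Lp ℂ 2 (volume : Measure (Fin d → ℝ)) →L[ℂ]
        Lp ℂ 2 (volume : Measure (Fin d → ℝ))) (T (u N)) := by simp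
      calc ‖u N‖ = ‖(T.symm : Lp ℂ 2 (volume : Measure (Fin d → ℝ)) →L[ℂ]
            Lp ℂ 2 (volume : Measure (Fin d → ℝ))) (T (u N))‖ := by rw [← h1]
        _ ≤ _ := (ContinuousLinearMap.le_opNorm _ _).trans
            (mul_le_mul_of_nonneg_left (hnorm N) (norm_nonneg _))
    obtain ⟨N, hN⟩ := exists_nat_gt ((‖(T.symm : Lp ℂ 2 (volume : Measure (Fin d → ℝ)) →L[ℂ]
        Lp ℂ 2 (volume : Measure (Fin d → ℝ)))‖ * (2 * C)) ^ 2)
    have h1 := hlow N
    have h2 := pow_le_pow_left₀ (norm_nonneg (u N)) (hup N) 2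
    linarith

end proof

/-- **Main theorem.** For every `d ≥ 1`, every full rank lattice `M(ℤ^d)` of `ℝ^d` and every
`k ≥ 2` there is a measurable set `Ω` of positive finite measure which multi-tiles `ℝ^d` by the
lattice at level `k` and such that for no set `Γ` (countable or not) the Gabor system
`G(χ_Ω, M(ℤ^d) × Γ)` is a Riesz basis of `L²(ℝ^d)`. -/
theorem result (d : ℕ) (hd : 1 ≤ d) (M : (Fin d → ℝ) ≃ₗ[ℝ] (Fin d → ℝ)) (k : ℕ) (hk : 2 ≤ k) :
    ∃ Ω : Set (Fin d → ℝ), MeasurableSet Ω ∧ 0 < volume Ω ∧ volume Ω < ⊤ ∧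
      MultiTiles Ω (lattice M) k ∧
      ∀ Γ : Set (Fin d → ℝ),
        ¬ IsRieszBasis (gabor (Ω.indicator fun _ => (1 : ℂ)) (lattice M) Γ) := by
  refine ⟨cell M ⟨0, hd⟩ 0 k, measurableSet_cell M _ _ _, ?_, ?_, multiTiles_cell M _ k,
    fun Γ h => no_riesz M _ k hk Γ (isRieszBasis' h)⟩
  · rw [volume_cell]
    have h1 := cdet_pos M
    have h2 : (0 : ℝ) < (k : ℝ) - 0 := by
      rw [sub_zero]
      exact_mod_cast (by omega : 0 < k)
    exact ENNReal.mul_pos (ENNReal.ofReal_pos.mpr h1).ne' (ENNReal.ofReal_pos.mpr h2).ne'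
  · rw [volume_cell]
    exact ENNReal.mul_lt_top ENNReal.ofReal_lt_top ENNReal.ofReal_lt_top

end Pool.Agent.Results.MP_9d6809_an.NoRieszBasis
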